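import Mathlib

/-! Root counts of an integer polynomial modulo `d`: the series of `rho d / d ^ 2` converges. -/

namespace Pool.Agent.Lead.Vis

open Polynomial Finset

/-- number of roots of `F` modulo `d` -/
noncomputable def rho (F : ℤ[X]) (d : ℕ) : ℕ := Nat.card {x : ZMod d // aeval x F = 0}

lemma hom_aeval {A B : Type*} [CommRing A] [CommRing B] (g : A →+* B) (x : A) (F : ℤ[X]) :
    g (aeval x F) = aeval (g x) F :=
  (Polynomial.aeval_algHom_apply g.toIntAlgHom x F).symm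

lemma rho_one (F : ℤ[X]) : rho F 1 = 1 := by
  unfold rho
  have : Unique {x : ZMod 1 // aeval x F = 0} :=
    ⟨⟨⟨0, Subsingleton.elim _ _⟩⟩, fun a => Subtype.ext (Subsingleton.elim _ _)⟩
  exact Nat.card_unique

lemma rho_mul (F : ℤ[X]) {m n : ℕ} (h : m.Coprime n) : rho F (m * n) = rho F m * rho F n := by
  unfold rho
  rw [← Nat.card_prod]
  let e := ZMod.chineseRemainder h
  have key : ∀ x : ZMod (m * n), aeval x F = 0 ↔ aeval (e x).1 F = 0 ∧ aeval (e x).2 F = 0 := by
    intro x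
    have h1 := hom_aeval ((RingHom.fst _ _).comp e.toRingHom) x F
    have h2 := hom_aeval ((RingHom.snd _ _).comp e.toRingHom) x F
    simp only [RingEquiv.toRingHom_eq_coe, RingHom.coe_comp, RingHom.coe_fst, RingHom.coe_snd,
      RingHom.coe_coe, Function.comp_apply] at h1 h2
    rw [← h1, ← h2, ← e.map_eq_zero_iff, Prod.ext_iff]
    rfl
  refine Nat.card_congr ((e.toEquiv.subtypeEquiv (q := fun y => aeval y.1 F = 0 ∧
    aeval y.2 F = 0) key).trans ?_)
  exact Equiv.subtypeProdEquivProd (p := fun y : ZMod m => aeval y F = 0)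
    (q := fun y : ZMod n => aeval y F = 0)

lemma rho_le (F : ℤ[X]) {d : ℕ} (hd : d ≠ 0) : rho F d ≤ d := by
  have : NeZero d := ⟨hd⟩
  unfold rho
  calc _ ≤ Nat.card (ZMod d) := Nat.card_le_card_of_injective _ Subtype.val_injective
    _ = d := Nat.card_zmod d

lemma rho_prime (F : ℤ[X]) {p : ℕ} (hp : p.Prime) (h : ¬ (p : ℤ) ∣ F.leadingCoeff) :
    rho F p ≤ F.natDegree := by
  have : Fact p.Prime := ⟨hp⟩
  have h0 : F.map (Int.castRingHom (ZMod p)) ≠ 0 := by
    intro e
    have := congrArg (fun G => G.coeff F.natDegree) e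
    simp only [coeff_map, coeff_zero, eq_intCast] at this
    exact h ((ZMod.intCast_zmod_eq_zero_iff_dvd _ _).1 this)
  unfold rho
  have : Nat.card {x : ZMod p // aeval x F = 0} =
      (F.map (Int.castRingHom (ZMod p))).roots.toFinset.card := by
    rw [Nat.card_eq_fintype_card, Fintype.card_subtype]
    congr 1
    ext x
    rw [Finset.mem_filter, Multiset.mem_toFinset, mem_roots h0, IsRoot.def, eval_map, aeval_def]
    exact ⟨fun h => h.2, fun h => ⟨mem_univ _, h⟩⟩
  rw [this]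
  exact (Multiset.toFinset_card_le _).trans ((card_roots' _).trans natDegree_map_le)

lemma rho_pow (F : ℤ[X]) {p : ℕ} (hp : p ≠ 0) (e : ℕ) : rho F (p ^ (e + 1)) ≤ rho F p * p ^ e := by
  have : NeZero p := ⟨hp⟩
  have : NeZero (p ^ (e + 1)) := ⟨pow_ne_zero _ hp⟩
  unfold rho
  have hd : p ∣ p ^ (e + 1) := dvd_pow_self p (by omega)
  let φ : {x : ZMod (p ^ (e + 1)) // aeval x F = 0} → {x : ZMod p // aeval x F = 0} × Fin (p ^ e) :=
    fun x => (⟨ZMod.castHom hd (ZMod p) x.1, by rw [← hom_aeval, x.2, map_zero]⟩,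
      ⟨x.1.val / p, by
        have := ZMod.val_lt x.1
        rw [Nat.div_lt_iff_lt_mul (Nat.pos_of_ne_zero hp), ← pow_succ]; exact this⟩)
  have hφ : Function.Injective φ := by
    intro x y hxy
    simp only [φ, Prod.mk.injEq, Subtype.mk.injEq, Fin.mk.injEq, ZMod.castHom_apply] at hxy
    obtain ⟨h1, h2⟩ := hxy
    rw [ZMod.cast_eq_val, ZMod.cast_eq_val, ZMod.natCast_eq_natCast_iff'] at h1
    apply Subtype.ext
    apply ZMod.val_injective
    rw [← Nat.div_add_mod x.1.val p, ← Nat.div_add_mod y.1.val p, h1, h2]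
  calc _ ≤ _ := Nat.card_le_card_of_injective _ hφ
    _ = _ := by rw [Nat.card_prod, Nat.card_eq_fintype_card (α := Fin _), Fintype.card_fin]

/-- the summand -/
noncomputable def ff (F : ℤ[X]) (d : ℕ) : ℝ := rho F d / (d : ℝ) ^ 2

lemma ff_nonneg (F : ℤ[X]) (d : ℕ) : 0 ≤ ff F d := by unfold ff; positivity

lemma ff_pow (F : ℤ[X]) (hl : 0 < F.leadingCoeff) (hk : 1 ≤ F.natDegree) {p : ℕ} (hp : p.Prime)
    (e : ℕ) : ff F (p ^ (e + 1)) ≤
      (2 * F.natDegree * (F.leadingCoeff : ℝ) ^ 2 / (p : ℝ) ^ 2) / 2 / 2 ^ e := by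
  have p2 : (2 : ℝ) ≤ p := by exact_mod_cast hp.two_le
  have k1 : (1 : ℝ) ≤ F.natDegree := by exact_mod_cast hk
  have l1 : (1 : ℝ) ≤ F.leadingCoeff := by exact_mod_cast hl
  have pe : (2 : ℝ) ^ e ≤ (p : ℝ) ^ e := by gcongr
  have hb : (rho F (p ^ (e + 1)) : ℝ) ≤ F.natDegree * (F.leadingCoeff : ℝ) ^ 2 * (p : ℝ) ^ e := by
    by_cases h : (p : ℤ) ∣ F.leadingCoeff
    · have h1 : (p : ℝ) ≤ F.leadingCoeff := by exact_mod_cast Int.le_of_dvd hl h
      have h2 : (rho F (p ^ (e + 1)) : ℝ) ≤ (p : ℝ) ^ (e + 1) := by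
        exact_mod_cast rho_le F (pow_ne_zero _ hp.ne_zero)
      refine h2.trans ?_
      rw [pow_succ']
      gcongr
      nlinarith
    · have h2 : (rho F (p ^ (e + 1)) : ℝ) ≤ F.natDegree * (p : ℝ) ^ e := by
        exact_mod_cast (rho_pow F hp.ne_zero e).trans
          (Nat.mul_le_mul_right _ (rho_prime F hp h))
      refine h2.trans ?_
      gcongr
      exact le_mul_of_one_le_right (by positivity) (one_le_pow₀ l1)
  unfold ff
  rw [div_le_iff₀ (by push_cast; positivity)]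
  refine hb.trans ?_
  have : (2 * F.natDegree * (F.leadingCoeff : ℝ) ^ 2 / (p : ℝ) ^ 2) / 2 / 2 ^ e *
      ((p ^ (e + 1) : ℕ) : ℝ) ^ 2 =
      F.natDegree * (F.leadingCoeff : ℝ) ^ 2 * (p : ℝ) ^ e * ((p : ℝ) ^ e / 2 ^ e) := by
    push_cast
    field_simp
    ring
  rw [this]
  refine le_mul_of_one_le_right (by positivity) ?_
  rw [le_div_iff₀ (by positivity)]
  linarith

theorem summable_ff (F : ℤ[X]) (hl : 0 < F.leadingCoeff) (hk : 1 ≤ F.natDegree) :
    Summable (ff F) := by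
  set K : ℝ := 2 * F.natDegree * (F.leadingCoeff : ℝ) ^ 2 with hK
  have K0 : 0 ≤ K := by positivity
  have f1 : ff F 1 = 1 := by simp [ff, rho_one]
  have fm : ∀ {m n : ℕ}, m.Coprime n → ff F (m * n) = ff F m * ff F n := by
    intro m n h
    simp only [ff, rho_mul F h]
    push_cast
    rw [mul_pow, div_mul_div_comm]
  have hs1 : ∀ {p : ℕ}, p.Prime → Summable (fun e => ff F (p ^ (e + 1))) := fun {p} hp =>
    Summable.of_nonneg_of_le (fun _ => ff_nonneg _ _) (ff_pow F hl hk hp)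
      (summable_geometric_two' _)
  have hs : ∀ {p : ℕ}, p.Prime → Summable (fun e => ff F (p ^ e)) := fun {p} hp =>
    (summable_nat_add_iff 1).1 (hs1 hp)
  have hL : ∀ {p : ℕ}, p.Prime → ∑' e, ff F (p ^ e) ≤ Real.exp (K / (p : ℝ) ^ 2) := by
    intro p hp
    rw [(hs hp).tsum_eq_zero_add, pow_zero, f1]
    have := (hs1 hp).tsum_le_tsum (ff_pow F hl hk hp) (summable_geometric_two' _)
    rw [tsum_geometric_two'] at this
    linarith [Real.add_one_le_exp (K / (p : ℝ) ^ 2)]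
  have hb : Summable (fun n : ℕ => K / (n : ℝ) ^ 2) := by
    simpa [div_eq_mul_inv] using (Real.summable_nat_pow_inv.2 (by norm_num : 1 < 2)).mul_left K
  refine summable_of_sum_range_le (c := Real.exp (∑' n : ℕ, K / (n : ℝ) ^ 2)) (ff_nonneg F) ?_
  intro N
  obtain ⟨-, h⟩ := EulerProduct.summable_and_hasSum_smoothNumbers_prod_primesBelow_tsum f1 fm
    (fun {p} hp => (hs hp).norm) N
  replace h := (hasSum_subtype_iff_indicator (f := ff F) (s := N.smoothNumbers)).1 h
  have h1 := sum_le_hasSum (range N) (fun i _ => Set.indicator_nonneg (fun j _ => ff_nonneg F j) i) h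
  have h2 : ∑ i ∈ range N, ff F i = ∑ i ∈ range N, (N.smoothNumbers).indicator (ff F) i := by
    refine sum_congr rfl fun i hi => ?_
    rcases Nat.eq_zero_or_pos i with rfl | h0
    · simp [ff, Set.indicator]
    · rw [Set.indicator_of_mem (Nat.mem_smoothNumbers_of_lt h0 (mem_range.1 hi))]
  rw [h2]
  refine h1.trans ?_
  calc ∏ p ∈ N.primesBelow, ∑' n, ff F (p ^ n)
      ≤ ∏ p ∈ N.primesBelow, Real.exp (K / (p : ℝ) ^ 2) :=
        prod_le_prod (fun p _ => tsum_nonneg fun _ => ff_nonneg _ _)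
          (fun p hp => hL (Nat.prime_of_mem_primesBelow hp))
    _ = Real.exp (∑ p ∈ N.primesBelow, K / (p : ℝ) ^ 2) := (Real.exp_sum _ _).symm
    _ ≤ _ := Real.exp_le_exp.2 (hb.sum_le_tsum _ fun _ _ => by positivity)

lemma card_dvd (F : ℤ[X]) {d : ℕ} (hd : d ≠ 0) (N : ℕ) :
    ((Icc 1 N).filter fun a : ℕ => (d : ℤ) ∣ F.eval (a : ℤ)).card ≤ rho F d * (N / d + 1) := by
  have : NeZero d := ⟨hd⟩
  classical
  have e : rho F d = (univ.filter fun x : ZMod d => aeval x F = 0).card := by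
    unfold rho
    rw [Nat.card_eq_fintype_card, Fintype.card_subtype]
  rw [e, ← card_range (N / d + 1), ← card_product]
  refine card_le_card_of_injOn (fun a => ((a : ZMod d), a / d)) ?_ ?_
  · intro a ha
    simp only [coe_filter, mem_Icc, Set.mem_ofPred_eq] at ha
    simp only [coe_product, coe_filter, mem_univ, true_and, coe_range, Set.mem_prod,
      Set.mem_ofPred_eq, Set.mem_Iio]
    refine ⟨?_, Nat.lt_succ_of_le (Nat.div_le_div_right ha.1.2)⟩
    have := hom_aeval (Int.castRingHom (ZMod d)) (a : ℤ) F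
    simp only [eq_intCast, Int.cast_natCast, coe_aeval_eq_eval] at this
    rw [← this]
    exact (ZMod.intCast_zmod_eq_zero_iff_dvd _ _).2 ha.2
  · intro a _ b _ h
    simp only [Prod.mk.injEq, ZMod.natCast_eq_natCast_iff'] at h
    rw [← Nat.div_add_mod a d, ← Nat.div_add_mod b d, h.1, h.2]

end Pool.Agent.Lead.Vis
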