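import Mathlib

/-! The integers `a` with `d F(u) = c F(a)` for some `0 < u < a` have density zero. -/

namespace Pool.Agent.Lead.Vis

open Polynomial Finset Filter Topology

lemma pow_gap {y z : ℝ} (hy : 0 ≤ y) (hz : 0 ≤ z) (j : ℕ) :
    |y - z| * z ^ j ≤ |y ^ (j + 1) - z ^ (j + 1)| := by
  rcases le_total z y with h | h
  · have h1 : z ^ j ≤ y ^ j := by gcongr
    rw [abs_of_nonneg (sub_nonneg.2 h)]
    refine le_trans ?_ (le_abs_self _)
    rw [pow_succ, pow_succ]
    nlinarith [mul_le_mul_of_nonneg_left h1 hy]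
  · have h1 : y ^ j ≤ z ^ j := by gcongr
    rw [abs_sub_comm, abs_of_nonneg (sub_nonneg.2 h), abs_sub_comm]
    refine le_trans ?_ (le_abs_self _)
    rw [pow_succ, pow_succ]
    nlinarith [mul_le_mul_of_nonneg_left h1 hy]

lemma eval_bound (R : ℝ[X]) (j : ℕ) (hR : R.natDegree < j + 1) :
    ∃ C : ℝ, 0 ≤ C ∧ ∀ a u : ℝ, 1 ≤ a → 0 ≤ u → u ≤ a → |R.eval u| ≤ C * a ^ j := by
  refine ⟨∑ i ∈ range (j + 1), |R.coeff i|, by positivity, fun a u ha hu hua => ?_⟩
  rw [eval_eq_sum_range' hR, sum_mul]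
  refine (abs_sum_le_sum_abs _ _).trans (sum_le_sum fun i hi => ?_)
  rw [abs_mul, abs_of_nonneg (pow_nonneg hu i)]
  gcongr
  calc u ^ i ≤ a ^ i := by gcongr
    _ ≤ a ^ j := pow_le_pow_right₀ ha (by simpa [Nat.lt_succ_iff] using hi)

/-- the real polynomial splits as `l (X + s) ^ k` plus a remainder of degree at most `k - 2` -/
lemma split (G : ℝ[X]) (j : ℕ) (hG : G.natDegree = j + 2) (hl : 0 < G.leadingCoeff) :
    ∃ (s : ℝ) (R : ℝ[X]), R.natDegree < j + 1 ∧
      ∀ x, G.eval x = G.leadingCoeff * (x + s) ^ (j + 2) + R.eval x := by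
  set l := G.leadingCoeff with hl'
  refine ⟨G.coeff (j + 1) / ((j + 2) * l),
    G - C l * (X + C (G.coeff (j + 1) / ((j + 2) * l))) ^ (j + 2), ?_, fun x => by simp⟩
  rw [Nat.lt_succ_iff, natDegree_le_iff_coeff_eq_zero]
  intro n hn
  rw [coeff_sub, coeff_C_mul, coeff_X_add_C_pow]
  rcases (show n = j + 1 ∨ n = j + 2 ∨ j + 2 < n by omega) with rfl | rfl | h
  · have : (j + 2).choose (j + 1) = j + 2 := Nat.choose_succ_self_right (j + 1)
    rw [this, show j + 2 - (j + 1) = 1 by omega]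
    push_cast
    field_simp
    ring
  · rw [hl', leadingCoeff, hG]; simp
  · rw [coeff_eq_zero_of_natDegree_lt (by omega), Nat.choose_eq_zero_of_lt h]; simp

lemma approx (G : ℝ[X]) (j : ℕ) (hG : G.natDegree = j + 2) (hl : 0 < G.leadingCoeff)
    {c d lam : ℝ} (hc : 0 < c) (hd : 0 < d) (hlam : 0 < lam) (hk : d * lam ^ (j + 2) = c) :
    ∃ s : ℝ, ∀ ε > 0, ∀ᶠ a : ℕ in atTop, ∀ u : ℕ, u < a → d * G.eval (u : ℝ) = c * G.eval (a : ℝ) →
      |u + s - lam * (a + s)| < ε := by
  obtain ⟨s, R, hR, hs⟩ := split G j hG hl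
  obtain ⟨C, C0, hC⟩ := eval_bound R j hR
  set l := G.leadingCoeff
  refine ⟨s, fun ε hε => ?_⟩
  have top : Tendsto (fun a : ℕ => c * G.eval (a : ℝ)) atTop atTop :=
    ((G.tendsto_atTop_of_leadingCoeff_nonneg (by
      rw [← natDegree_pos_iff_degree_pos]; omega) hl.le).comp
      tendsto_natCast_atTop_atTop).const_mul_atTop hc
  have small : ∀ᶠ a : ℕ in atTop, ∀ u ∈ range (⌈|s|⌉₊ + 1), d * G.eval (u : ℝ) < c * G.eval (a : ℝ) :=
    (eventually_all_finset _).2 fun u _ => top.eventually_gt_atTop _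
  set K : ℝ := (c + d) * C / (d * l * (lam / 2) ^ (j + 1)) with hK
  filter_upwards [small, tendsto_natCast_atTop_atTop.eventually_ge_atTop (2 * |s|),
    tendsto_natCast_atTop_atTop.eventually_ge_atTop (1 : ℝ),
    tendsto_natCast_atTop_atTop.eventually_gt_atTop (K / ε)] with a h1 h2 h3 h4 u hu e
  have hu1 : |s| ≤ u := by
    by_contra h
    refine (h1 u (mem_range.2 ?_)).ne e
    have : (u : ℝ) < ⌈|s|⌉₊ := (not_le.1 h).trans_le (Nat.le_ceil _)
    have : u < ⌈|s|⌉₊ := by exact_mod_cast this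
    omega
  have hy : 0 ≤ u + s := by linarith [neg_abs_le s]
  have hx : (a : ℝ) / 2 ≤ a + s := by linarith [neg_abs_le s]
  have hz : lam / 2 * a ≤ lam * (a + s) := by nlinarith
  have hz0 : 0 < lam / 2 * a := by positivity
  have g := pow_gap hy (hz0.le.trans hz) (j + 1)
  have r1 := hC a u h3 (Nat.cast_nonneg _) (by exact_mod_cast hu.le)
  have r2 := hC a a h3 (Nat.cast_nonneg _) le_rfl
  have e2 : d * l * ((u + s) ^ (j + 1 + 1) - (lam * (a + s)) ^ (j + 1 + 1)) =
      c * R.eval (a : ℝ) - d * R.eval (u : ℝ) := by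
    rw [hs, hs] at e
    rw [mul_pow]
    linear_combination e - l * (a + s) ^ (j + 2) * hk
  have e3 : d * l * |(u + s) ^ (j + 1 + 1) - (lam * (a + s)) ^ (j + 1 + 1)| ≤
      (c + d) * C * a ^ j := by
    rw [← abs_of_pos (mul_pos hd hl), ← abs_mul, e2]
    refine (abs_sub _ _).trans ?_
    rw [abs_mul, abs_mul, abs_of_pos hc, abs_of_pos hd]
    nlinarith
  have e4 : d * l * (|u + s - lam * (a + s)| * (lam / 2 * a) ^ (j + 1)) ≤ (c + d) * C * a ^ j := by
    refine le_trans ?_ e3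
    gcongr
    refine le_trans ?_ g
    gcongr
  have a0 : (0 : ℝ) < a := by linarith
  have e5 : |u + s - lam * (a + s)| * a ≤ K := by
    rw [hK, le_div_iff₀ (by positivity)]
    refine le_of_mul_le_mul_right ?_ (pow_pos a0 j)
    refine le_trans (le_of_eq ?_) e4
    rw [mul_pow]
    ring
  rw [div_lt_iff₀ hε] at h4
  by_contra h
  push Not at h
  nlinarith

lemma no_line (F : ℤ[X]) (hF : F ≠ 0) {z w : ℂ} (hzw : z ≠ w) (hz : aeval z F = 0)
    (hw : aeval w F = 0) {c d lam mu : ℝ} (hd : d ≠ 0) (h0 : 0 < lam) (h1 : lam < 1)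
    (hinf : {a : ℕ | d * aeval (lam * a + mu) F = c * aeval (a : ℝ) F}.Infinite) : False := by
  set G := F.map (Int.castRingHom ℂ) with hG
  have G0 : G ≠ 0 := (Polynomial.map_ne_zero_iff (Int.cast_injective (α := ℂ))).2 hF
  have ev : ∀ x : ℂ, G.eval x = aeval x F := fun x => by rw [hG, eval_map, aeval_def]; rfl
  have evr : ∀ x : ℝ, G.eval (x : ℂ) = ((aeval x F : ℝ) : ℂ) := fun x => by
    rw [ev]
    exact Polynomial.aeval_algHom_apply (Complex.ofRealHom.toIntAlgHom) x F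
  have id : C (d : ℂ) * G.comp (C (lam : ℂ) * X + C (mu : ℂ)) = C (c : ℂ) * G := by
    apply Polynomial.eq_of_infinite_eval_eq
    refine (hinf.image (f := fun a : ℕ => (a : ℂ)) Nat.cast_injective.injOn).mono ?_
    rintro _ ⟨a, ha, rfl⟩
    simp only [Set.mem_ofPred_eq, eval_mul, eval_C, eval_comp, eval_add, eval_X] at ha ⊢
    have e1 := evr (lam * a + mu)
    have e2 := evr a
    push_cast at e1 e2
    rw [e1, e2]
    exact_mod_cast ha
  have step : ∀ x : ℂ, G.eval x = 0 → G.eval (lam * x + mu) = 0 := by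
    intro x hx
    have := congrArg (eval x) id
    simp only [eval_mul, eval_C, eval_comp, eval_add, eval_X, hx, mul_zero] at this
    exact (mul_eq_zero.1 this).resolve_left (by exact_mod_cast hd)
  set p : ℂ := mu / (1 - lam) with hp
  have l1 : (1 : ℂ) - lam ≠ 0 := by exact_mod_cast (sub_pos.2 h1).ne'
  obtain ⟨x, hx, hxp⟩ : ∃ x, G.eval x = 0 ∧ x ≠ p := by
    by_cases h : z = p
    · exact ⟨w, by rw [ev, hw], fun e => hzw (h.trans e.symm)⟩
    · exact ⟨z, by rw [ev, hz], h⟩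
  have orb : ∀ n : ℕ, G.eval (p + (lam : ℂ) ^ n * (x - p)) = 0 := by
    intro n
    induction n with
    | zero => simpa using hx
    | succ n ih =>
      have := step _ ih
      convert this using 2
      rw [hp]
      field_simp
      ring
  apply G0
  apply Polynomial.eq_zero_of_infinite_isRoot
  refine Set.infinite_of_injective_forall_mem
    (f := fun n : ℕ => p + (lam : ℂ) ^ n * (x - p)) ?_ orb
  intro m n h
  simp only [add_right_inj, mul_eq_mul_right_iff, sub_eq_zero, hxp, or_false] at h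
  have h' : lam ^ m = lam ^ n := by exact_mod_cast h
  exact pow_right_injective₀ h0 h1.ne h'

lemma int_close {m n : ℤ} {x : ℝ} (h1 : |m - x| < 1 / 2) (h2 : |n - x| < 1 / 2) : m = n := by
  rw [abs_lt] at h1 h2
  have a : (m : ℝ) < n + 1 := by linarith
  have b : (n : ℝ) < m + 1 := by linarith
  have a' : m < n + 1 := by exact_mod_cast a
  have b' : n < m + 1 := by exact_mod_cast b
  omega

/-- the exceptional `a` -/
def Exc (F : ℤ[X]) (c d a : ℕ) : Prop :=
  ∃ u : ℕ, u < a ∧ (d : ℤ) * F.eval (u : ℤ) = c * F.eval (a : ℤ)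

lemma gap (F : ℤ[X]) (hl : 0 < F.leadingCoeff) (hk : 2 ≤ F.natDegree) {z w : ℂ} (hzw : z ≠ w)
    (hz : aeval z F = 0) (hw : aeval w F = 0) {c d : ℕ} (hc : 0 < c) (hcd : c < d) {g : ℕ}
    (hg : 0 < g) : ∀ᶠ a : ℕ in atTop, ¬ (Exc F c d a ∧ Exc F c d (a + g)) := by
  have F0 : F ≠ 0 := by rintro rfl; simp at hl
  obtain ⟨j, hj⟩ : ∃ j, F.natDegree = j + 2 := ⟨F.natDegree - 2, by omega⟩
  set G := F.map (Int.castRingHom ℝ) with hG
  have inj : Function.Injective (Int.castRingHom ℝ) := Int.cast_injective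
  have ev : ∀ x : ℝ, G.eval x = aeval x F := fun x => by rw [hG, eval_map, aeval_def]; rfl
  have evi : ∀ x : ℕ, G.eval (x : ℝ) = ((F.eval (x : ℤ) : ℤ) : ℝ) := fun x => by
    rw [hG, ← Int.cast_natCast (R := ℝ) x]
    exact eval_intCast_map _ _ _
  have c0 : (0 : ℝ) < c := by exact_mod_cast hc
  have cd : (c : ℝ) < d := by exact_mod_cast hcd
  have d0 : (0 : ℝ) < d := c0.trans cd
  set lam : ℝ := ((c : ℝ) / d) ^ (((j + 2 : ℕ) : ℝ)⁻¹) with hlam
  have lp : lam ^ (j + 2) = c / d := Real.rpow_inv_natCast_pow (by positivity) (by omega)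
  have l0 : 0 < lam := by positivity
  have l1 : lam < 1 := Real.rpow_lt_one (by positivity) ((div_lt_one d0).2 cd) (by positivity)
  obtain ⟨s, hs⟩ := approx G j (by rw [hG, natDegree_map_eq_of_injective inj, hj])
    (by rw [hG, leadingCoeff_map_of_injective inj]; simpa using hl) c0 d0 l0
    (by rw [lp]; field_simp)
  have hs' : ∀ ε > 0, ∀ᶠ a : ℕ in atTop, ∀ u : ℕ, u < a →
      (d : ℤ) * F.eval (u : ℤ) = c * F.eval (a : ℤ) → |u + s - lam * (a + s)| < ε := by
    intro ε hε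
    filter_upwards [hs ε hε] with a ha u hu e
    refine ha u hu ?_
    rw [evi, evi]
    exact_mod_cast e
  by_contra hfr
  rw [not_eventually] at hfr
  simp only [not_not] at hfr
  have near : ∀ ε > 0, ∃ r : ℤ, |r - lam * g| < ε := by
    intro ε hε
    obtain ⟨a, ⟨⟨u, hu, e⟩, ⟨v, hv, e'⟩⟩, h1, h2⟩ := (hfr.and_eventually
      ((hs' (ε / 2) (by positivity)).and
        ((tendsto_add_atTop_nat g).eventually (hs' (ε / 2) (by positivity))))).exists
    have k1 := h1 u hu e
    have k2 := h2 v hv e'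
    refine ⟨(v : ℤ) - u, ?_⟩
    push_cast at k2 ⊢
    rw [abs_lt] at k1 k2 ⊢
    constructor <;> linarith [k1.1, k1.2, k2.1, k2.2]
  obtain ⟨r, hr⟩ : ∃ r : ℤ, (r : ℝ) = lam * g := by
    obtain ⟨r, hr⟩ := near (1 / 2) (by norm_num)
    refine ⟨r, ?_⟩
    by_contra hne
    have hp : 0 < |r - lam * g| := abs_pos.2 (sub_ne_zero.2 hne)
    obtain ⟨r', hr'⟩ := near _ hp
    have := int_close hr (hr'.trans hr)
    subst this
    exact lt_irrefl _ hr'
  have g0 : (0 : ℝ) < g := by exact_mod_cast hg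
  have ev2 : ∀ᶠ a : ℕ in atTop, ∀ u : ℕ, u < a →
      (d : ℤ) * F.eval (u : ℤ) = c * F.eval (a : ℤ) →
      |(((g : ℤ) * u - r * a : ℤ) : ℝ) - (r - g) * s| < 1 / 2 := by
    filter_upwards [hs' (1 / 2 / g) (by positivity)] with a ha u hu e
    have := ha u hu e
    rw [lt_div_iff₀ g0, ← abs_of_pos g0, ← abs_mul] at this
    refine lt_of_eq_of_lt (congrArg abs ?_) this
    push_cast
    rw [hr]
    ring
  obtain ⟨a1, ⟨⟨u1, hu1, e1⟩, -⟩, h1⟩ := (hfr.and_eventually ev2).exists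
  set m : ℤ := (g : ℤ) * u1 - r * a1 with hm
  refine no_line F F0 hzw hz hw (c := c) (mu := m / g) d0.ne' l0 l1 ?_
  refine Nat.frequently_atTop_iff_infinite.1 ((hfr.and_eventually ev2).mono ?_)
  rintro a ⟨⟨⟨u, hu, e⟩, -⟩, h⟩
  have k := int_close (h u hu e) (h1 u1 hu1 e1)
  have k2 : lam * a + m / g = u := by
    rw [hm, ← k]
    push_cast
    rw [hr]
    field_simp
    ring
  rw [k2, ← ev, ← ev, evi, evi]
  exact_mod_cast e

open Classical in
lemma sparse (P : ℕ → Prop) (h : ∀ g, 0 < g → ∀ᶠ a : ℕ in atTop, ¬ (P a ∧ P (a + g))) :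
    Tendsto (fun N : ℕ => (((Icc 1 N).filter P).card : ℝ) / N) atTop (𝓝 0) := by
  rw [Metric.tendsto_atTop]
  intro ε hε
  obtain ⟨g, hg⟩ := exists_nat_gt (2 / ε)
  have g0 : (0 : ℝ) < g := lt_trans (by positivity) hg
  have g1 : 0 < g := by exact_mod_cast g0
  obtain ⟨a0, ha0⟩ := eventually_atTop.1
    ((eventually_all_finset (Ioo 0 g)).2 fun i hi => h i (mem_Ioo.1 hi).1)
  have cb : ∀ N, ((Icc 1 N).filter P).card ≤ a0 + (N / g + 1) := by
    intro N
    have : (Icc 1 N).filter P ⊆ range a0 ∪ (Icc 1 N).filter fun a => P a ∧ a0 ≤ a := by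
      intro a ha
      simp only [mem_filter, mem_union, mem_range] at ha ⊢
      by_cases e : a < a0
      · exact Or.inl e
      · exact Or.inr ⟨ha.1, ha.2, not_lt.1 e⟩
    refine (card_le_card this).trans ((card_union_le _ _).trans ?_)
    rw [card_range]
    gcongr
    rw [← card_range (N / g + 1)]
    have aux : ∀ a b, P a → P b → a0 ≤ a → a < b → a / g ≠ b / g := by
      intro a b pa pb h0 hab e
      have : b - a < g := by
        have := Nat.div_add_mod a g
        have := Nat.div_add_mod b g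
        have := Nat.mod_lt b g1
        rw [e] at *
        omega
      refine ha0 a h0 (b - a) (mem_Ioo.2 ⟨by omega, this⟩) ⟨pa, ?_⟩
      rwa [show a + (b - a) = b by omega]
    refine card_le_card_of_injOn (fun a => a / g) ?_ ?_
    · intro a ha
      simp only [coe_filter, mem_Icc, Set.mem_ofPred_eq] at ha
      simpa using Nat.lt_succ_of_le (Nat.div_le_div_right ha.1.2)
    · intro a ha b hb e
      simp only [coe_filter, mem_Icc, Set.mem_ofPred_eq] at ha hb
      rcases lt_trichotomy a b with l | l | l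
      · exact absurd e (aux a b ha.2.1 hb.2.1 ha.2.2 l)
      · exact l
      · exact absurd e.symm (aux b a hb.2.1 ha.2.1 hb.2.2 l)
  obtain ⟨N0, hN0⟩ := exists_nat_gt ((a0 + 1) * 2 / ε)
  refine ⟨N0, fun N hN => ?_⟩
  have hN' : (a0 + 1) * 2 / ε < (N : ℝ) := hN0.trans_le (by exact_mod_cast hN)
  have N0' : (0 : ℝ) < N := lt_trans (by positivity) hN'
  rw [Real.dist_eq, sub_zero, abs_of_nonneg (by positivity), div_lt_iff₀ N0']
  have c1 : (((Icc 1 N).filter P).card : ℝ) ≤ a0 + (N / g + 1) := by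
    have : (((Icc 1 N).filter P).card : ℝ) ≤ a0 + ((N / g : ℕ) + 1) := by exact_mod_cast cb N
    linarith [Nat.cast_div_le (α := ℝ) (m := N) (n := g)]
  rw [div_lt_iff₀ hε] at hN' hg
  have : (N : ℝ) / g < ε / 2 * N := by
    rw [div_lt_iff₀ g0]
    nlinarith
  nlinarith

lemma mono_ev (F : ℤ[X]) (hl : 0 < F.leadingCoeff) (hk : 2 ≤ F.natDegree) :
    ∀ᶠ a : ℕ in atTop, 0 < F.eval (a : ℤ) ∧ ∀ u : ℕ, u < a → F.eval (u : ℤ) < F.eval (a : ℤ) := by
  set G := F.map (Int.castRingHom ℝ) with hG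
  have inj : Function.Injective (Int.castRingHom ℝ) := Int.cast_injective
  have evi : ∀ x : ℕ, G.eval (x : ℝ) = ((F.eval (x : ℤ) : ℤ) : ℝ) := fun x => by
    rw [hG, ← Int.cast_natCast (R := ℝ) x]
    exact eval_intCast_map _ _ _
  have nd : G.natDegree = F.natDegree := by rw [hG, natDegree_map_eq_of_injective inj]
  have lc : 0 < G.leadingCoeff := by
    rw [hG, leadingCoeff_map_of_injective inj]; simpa using hl
  have top : Tendsto (fun a : ℕ => G.eval (a : ℝ)) atTop atTop :=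
    (G.tendsto_atTop_of_leadingCoeff_nonneg (by
      rw [← natDegree_pos_iff_degree_pos]; omega) lc.le).comp tendsto_natCast_atTop_atTop
  have dtop : Tendsto (fun x : ℝ => G.derivative.eval x) atTop atTop := by
    refine G.derivative.tendsto_atTop_of_leadingCoeff_nonneg ?_ ?_
    · rw [← natDegree_pos_iff_degree_pos, natDegree_derivative]; omega
    · rw [leadingCoeff, natDegree_derivative, coeff_derivative,
        show G.natDegree - 1 + 1 = G.natDegree by omega]
      exact mul_nonneg lc.le (by positivity)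
  obtain ⟨x0, hx0⟩ := eventually_atTop.1 (dtop.eventually_gt_atTop 0)
  have sm : StrictMonoOn (fun x => G.eval x) (Set.Ici x0) :=
    strictMonoOn_of_deriv_pos (convex_Ici _) G.continuous.continuousOn fun x hx => by
      rw [Polynomial.deriv]
      exact hx0 x (interior_subset hx)
  have small : ∀ᶠ a : ℕ in atTop, ∀ u ∈ range ⌈x0⌉₊, G.eval (u : ℝ) < G.eval (a : ℝ) :=
    (eventually_all_finset _).2 fun u _ => top.eventually_gt_atTop _
  filter_upwards [small, top.eventually_gt_atTop 0] with a h1 h2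
  refine ⟨by rw [evi] at h2; exact_mod_cast h2, fun u hu => ?_⟩
  have : G.eval (u : ℝ) < G.eval (a : ℝ) := by
    by_cases e : u < ⌈x0⌉₊
    · exact h1 u (mem_range.2 e)
    · have e1 : x0 ≤ u := Nat.ceil_le.1 (not_lt.1 e)
      have e2 : (u : ℝ) < a := by exact_mod_cast hu
      exact sm e1 (e1.trans e2.le) e2
  rw [evi, evi] at this
  exact_mod_cast this

end Pool.Agent.Lead.Vis
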